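import Pool.Agent.U469.RT.Stm

/-!
Project RT, package LIB: pointwise limits of functions with symmetric decreasing majorants.
-/

set_option autoImplicit false

namespace Pool.Agent.U427.RT.LIB

open Finset Filter Topology Pool.Agent.U469.RT

theorem lib : S_LIB := by
  classical
  intro g h C hlim hM
  choose P hP1 hP2 hP3 hP4 hP5 using hM
  have hPC : ∀ R x, P R x ≤ C := fun R x =>
    ((hP3 R).le_tsum x (fun y _ => hP2 R y)).trans (hP4 R)
  have hC : ∀ y, |h y| ≤ C := by
    intro y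
    refine le_of_tendsto ((hlim y).abs) (Eventually.of_forall fun R => ?_)
    exact (hP5 R y).trans (hPC R y)
  have hC0 : 0 ≤ C := (abs_nonneg (h 0)).trans (hC 0)
  let s : ℤ → Set ℝ := fun x => (fun y : ℤ => |h y|) '' {y : ℤ | |x| ≤ |y|}
  have hbdd : ∀ x, BddAbove (s x) := by
    intro x
    refine ⟨C, ?_⟩
    rintro _ ⟨y, -, rfl⟩
    exact hC y
  have hne : ∀ x, (s x).Nonempty := fun x => ⟨|h x|, x, le_refl (|x|), rfl⟩
  let Φ : ℤ → ℝ := fun x => sSup (s x)
  have hself : ∀ x, |h x| ≤ Φ x := fun x => le_csSup (hbdd x) ⟨x, le_refl (|x|), rfl⟩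
  have hnn : ∀ x, 0 ≤ Φ x := fun x => (abs_nonneg _).trans (hself x)
  have hmono : ∀ x y : ℤ, |x| ≤ |y| → Φ y ≤ Φ x := by
    intro x y hxy
    refine csSup_le_csSup (hbdd x) (hne y) ?_
    rintro _ ⟨z, hz, rfl⟩
    exact ⟨z, hxy.trans hz, rfl⟩
  have hfin : ∀ F : Finset ℤ, ∑ x ∈ F, Φ x ≤ C := by
    intro F
    refine le_of_forall_pos_le_add fun e he => ?_
    set c : ℝ := (F.card : ℝ) with hc
    have hc0 : 0 ≤ c := Nat.cast_nonneg _
    obtain ⟨ε, hε, hεe⟩ : ∃ ε : ℝ, 0 < ε ∧ 2 * ε * c ≤ e := by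
      refine ⟨e / (2 * (c + 1)), by positivity, ?_⟩
      rw [show 2 * (e / (2 * (c + 1))) * c = e * (c / (c + 1)) by field_simp]
      have : c / (c + 1) ≤ 1 := by
        rw [div_le_one (by linarith)]
        linarith
      nlinarith
    have hy : ∀ x : ℤ, ∃ y : ℤ, |x| ≤ |y| ∧ Φ x - ε < |h y| := by
      intro x
      obtain ⟨_, ⟨y, hy, rfl⟩, hlt⟩ := exists_lt_of_lt_csSup (hne x) (show Φ x - ε < sSup (s x) by
        change Φ x - ε < Φ x
        linarith)
      exact ⟨y, hy, hlt⟩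
    choose y hy1 hy2 using hy
    have hev : ∀ᶠ R in atTop, ∀ x ∈ F, |h (y x)| - ε < |g R (y x)| := by
      rw [Filter.eventually_all_finset]
      intro x _
      exact ((hlim (y x)).abs).eventually_const_lt (by linarith)
    obtain ⟨R, hR⟩ := hev.exists
    calc ∑ x ∈ F, Φ x ≤ ∑ x ∈ F, (P R x + 2 * ε) := by
          refine sum_le_sum fun x hx => ?_
          have h1 := hR x hx
          have h2 := hy2 x
          have h3 := hP5 R (y x)
          have h4 := hP1 R x (y x) (hy1 x)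
          linarith
      _ = ∑ x ∈ F, P R x + 2 * ε * c := by
          rw [sum_add_distrib, sum_const, nsmul_eq_mul, hc]
          ring
      _ ≤ C + e := by
          have h1 : ∑ x ∈ F, P R x ≤ ∑' x, P R x := (hP3 R).sum_le_tsum F (fun x _ => hP2 R x)
          have h2 := hP4 R
          linarith
  have hsum : Summable Φ := summable_of_sum_le hnn hfin
  exact ⟨Φ, hmono, hnn, hsum, hsum.tsum_le_of_sum_le hfin, hself⟩

end Pool.Agent.U427.RT.LIB
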